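import Pool.Agent.W275.UB.Stm

/-!
# UB-CRAM: lifting generators of the monomials
-/

set_option autoImplicit false

namespace Pool.Agent.W230.UB.Cram

open MvPolynomial Pool.Agent.W275.UB

theorem main : S_cram := by
  classical
  intro B k J _ _ _ φ n s g e hg hmon
  -- exponents of degree `s`
  set F : Finset (Fin n →₀ ℕ) := Finset.univ.finsuppAntidiag s with hF
  have memF : ∀ μ : Fin n →₀ ℕ, μ ∈ F ↔ μ.degree = s := by
    intro μ
    rw [hF, Finset.mem_finsuppAntidiag, Finsupp.degree_eq_sum]
    simp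
  set G : J → MvPolynomial (Fin n) k := fun j => map φ (g j) with hG
  -- the vector of coefficients
  let vec : MvPolynomial (Fin n) k →ₗ[k] (F → k) :=
    LinearMap.pi fun μ : F => MvPolynomial.lcoeff k μ.1
  have vec_apply : ∀ (P : MvPolynomial (Fin n) k) (μ : F), vec P μ = coeff μ.1 P := fun P μ => rfl
  let Q : Type := {q : (Fin n →₀ ℕ) × J // q.1.degree + e q.2 = s}
  let v : Q → (F → k) := fun q => vec (monomial q.1.1 1 * G q.1.2)
  have hmem : ∀ (j : J) (c : MvPolynomial (Fin n) k),
      vec (c * G j) ∈ Submodule.span k (Set.range v) := by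
    intro j c
    induction c using MvPolynomial.induction_on' with
    | monomial ν a =>
      have h1 : (monomial ν a : MvPolynomial (Fin n) k) * G j = a • (monomial ν 1 * G j) := by
        rw [← smul_mul_assoc, MvPolynomial.smul_monomial, smul_eq_mul, mul_one]
      rw [h1, map_smul]
      refine Submodule.smul_mem _ _ ?_
      by_cases hq : ν.degree + e j = s
      · exact Submodule.subset_span ⟨⟨(ν, j), hq⟩, rfl⟩
      · have h2 : vec (monomial ν 1 * G j) = 0 := by
          ext μ
          rw [vec_apply]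
          have h3 : ((monomial ν (1 : k)) * G j).IsHomogeneous (ν.degree + e j) :=
            (isHomogeneous_monomial 1 rfl).mul ((hg j).map φ)
          rw [h3.coeff_eq_zero, Pi.zero_apply]
          rw [(memF μ.1).mp μ.2]
          exact fun h => hq h.symm
        rw [h2]
        exact Submodule.zero_mem _
    | add p q hp hq =>
      rw [add_mul, map_add]
      exact Submodule.add_mem _ hp hq
  have hspan : Submodule.span k (Set.range v) = ⊤ := by
    rw [eq_top_iff]
    intro y _
    have h1 : y = ∑ μ : F, y μ • vec (monomial μ.1 1) := by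
      ext μ'
      rw [Finset.sum_apply, Finset.sum_eq_single μ']
      · rw [Pi.smul_apply, vec_apply, coeff_monomial, if_pos rfl, smul_eq_mul, mul_one]
      · intro μ _ hne
        rw [Pi.smul_apply, vec_apply, coeff_monomial, if_neg, smul_zero]
        exact fun h => hne (Subtype.ext h)
      · intro h; exact absurd (Finset.mem_univ _) h
    rw [h1]
    refine Submodule.sum_mem _ fun μ _ => Submodule.smul_mem _ _ ?_
    obtain ⟨c, hc⟩ := Ideal.mem_span_range_iff_exists_fun.mp (hmon μ.1 ((memF _).mp μ.2))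
    rw [← hc, map_sum]
    exact Submodule.sum_mem _ fun j _ => hmem j (c j)
  obtain ⟨κ, a, -, ha1, ha2⟩ := exists_linearIndependent' k v
  rw [hspan] at ha1
  let bas : Module.Basis κ k (F → k) := Module.Basis.mk ha2 ha1.ge
  let ε : F ≃ κ := (Pi.basisFun k F).indexEquiv bas
  let N : Matrix F F B := fun μ' μ => coeff μ.1 (monomial (a (ε μ')).1.1 (1 : B) *
    g (a (ε μ')).1.2)
  have hN : ∀ μ' μ, φ (N μ' μ) = v (a (ε μ')) μ := by
    intro μ' μ
    change φ (coeff μ.1 (monomial (a (ε μ')).1.1 (1 : B) * g (a (ε μ')).1.2)) =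
      coeff μ.1 (monomial (a (ε μ')).1.1 (1 : k) * map φ (g (a (ε μ')).1.2))
    rw [← MvPolynomial.coeff_map, map_mul, map_monomial, map_one]
  have hdet : φ N.det ≠ 0 := by
    rw [RingHom.map_det]
    have h1 : LinearIndependent k (φ.mapMatrix N).row := by
      have h2 : (φ.mapMatrix N).row = (v ∘ a) ∘ ε := by
        funext μ' μ
        exact hN μ' μ
      rw [h2]
      exact ha2.comp _ ε.injective
    rw [Matrix.linearIndependent_rows_iff_isUnit, Matrix.isUnit_iff_isUnit_det] at h1
    exact h1.ne_zero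
  refine ⟨N.det, hdet, ?_⟩
  intro μ hμ
  set μ₀ : F := ⟨μ, (memF μ).mpr hμ⟩ with hμ₀
  have hadj : ∀ μ'' : F, ∑ μ', N.adjugate μ₀ μ' * N μ' μ'' = if μ₀ = μ'' then N.det else 0 := by
    intro μ''
    have h1 := congrFun (congrFun (Matrix.adjugate_mul N) μ₀) μ''
    rw [Matrix.mul_apply, Matrix.smul_apply, Matrix.one_apply] at h1
    rw [h1]
    split_ifs <;> simp
  have hpoly : ∀ μ' : F, (monomial (a (ε μ')).1.1 (1 : B) * g (a (ε μ')).1.2) =
      ∑ μ'' : F, monomial μ''.1 (N μ' μ'') := by
    intro μ'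
    have h3 : (monomial (a (ε μ')).1.1 (1 : B) * g (a (ε μ')).1.2).IsHomogeneous s := by
      have := (isHomogeneous_monomial (1 : B) (d := (a (ε μ')).1.1) rfl).mul (hg (a (ε μ')).1.2)
      rwa [(a (ε μ')).2] at this
    ext τ
    rw [coeff_sum]
    by_cases hτ : τ.degree = s
    · rw [Finset.sum_eq_single ⟨τ, (memF τ).mpr hτ⟩]
      · rw [coeff_monomial, if_pos rfl]
      · intro μ'' _ hne
        rw [coeff_monomial, if_neg]
        exact fun h => hne (Subtype.ext h)
      · intro h; exact absurd (Finset.mem_univ _) h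
    · rw [h3.coeff_eq_zero hτ]
      symm
      refine Finset.sum_eq_zero fun μ'' _ => ?_
      rw [coeff_monomial, if_neg]
      intro h
      exact hτ (h ▸ (memF μ''.1).mp μ''.2)
  have hfin : monomial μ N.det = ∑ μ' : F, C (N.adjugate μ₀ μ') *
      (monomial (a (ε μ')).1.1 (1 : B) * g (a (ε μ')).1.2) := by
    simp_rw [hpoly, Finset.mul_sum, C_mul_monomial]
    rw [Finset.sum_comm]
    simp_rw [← map_sum, hadj]
    rw [Finset.sum_eq_single μ₀]
    · rw [if_pos rfl]
    · intro μ'' _ hne
      rw [if_neg (fun h => hne h.symm), map_zero]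
    · intro h; exact absurd (Finset.mem_univ _) h
  rw [hfin]
  refine Ideal.sum_mem _ fun μ' _ => Ideal.mul_mem_left _ _ (Ideal.mul_mem_left _ _ ?_)
  exact Ideal.subset_span ⟨_, rfl⟩

end Pool.Agent.W230.UB.Cram
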